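import Pool.Agent.Run7.h19.HP.Asm
import Pool.Agent.Run7.h19.HP.Fin
import Pool.Agent.Run7.h774.HP.B

/-!
# MP_5499ac_co: the smallest admissible integer is `1` for every `q`

The starting file `SmallestRange` proves `M_q = 1` for `q ≥ 3` and `M_2 ∈ {1, 2}`.  Here the
remaining case `q = 2`, `n = 2k + 1` is settled: for `k ≥ 200` every intersecting family of
`k`-spaces of `F_2^(2k+1)` has at most `2^(k+1) - 1` high points.

Proof.  Let `F` be maximal, `T` a transversal of least dimension `τ`, `p = 2^k - 1`.
* `τ ≤ k - 8`: call a line `L` popular if it is a transversal or lies in many (relatively to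
  `p^(j-2)`) transversals of some dimension `j ≤ τ + 3`.  Popular lines pairwise meet, and the
  other lines are negligible, so a high point outside `T` lies on two popular lines, or on a
  transversal line.
* `τ > k - 8`: if there are `2^(k+1)` high points, then every transversal of dimension `τ` or
  `τ + 1` misses a high point outside `T`; counting shows that it meets `T` in codimension at most
  `10`, so that these transversals are few, and then no high point outside `T` is left.  For
  `τ ≥ k - 1` one also needs that at most `(13/16) 4^k` transversals of dimension `τ` contain a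
  given subspace of dimension `τ - 2`.
-/

set_option autoImplicit false

open Module Submodule Finset Pool.Agent.H99.SubDeg
open Pool.Agent.Results.MP_5499ac_co.SmallestRange (Admissible)

namespace Pool.Agent.Results.MP_5499ac_co.SmallestIsOne

theorem all : Run7.h19.HP.S_ALL :=
  Run7.h19.HP.t_ALL
    (Run7.h774.HP.t_B Run7.h19.HP.p_MEET Run7.h19.HP.p_NPOP Run7.h19.HP.p_POP1)
    Run7.h19.HP.p_C

/-- **MP_5499ac_co, full answer.**  Part 1: for every finite field (so for every prime power `q`)
admissible integers exist and the smallest one is `M_q = 1`.  Part 2 (the new case, explicit): for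
`q = 2`, `k ≥ 200` and `n = 2k + 1` every intersecting family of `k`-spaces has at most
`[k+1]_2 = 2^(k+1) - 1` points of degree `> [n-2 choose k-2]_2`.  Part 3: `gb q a b` counts the
`b`-dimensional subspaces of `K^a`, `q = |K|`. -/
theorem result :
    (∀ (K : Type) [Field K] [Finite K], IsLeast {M : ℤ | Admissible K M} 1) ∧
    (∀ (K : Type) [Field K] [Finite K] (k : ℕ) (F : Finset (Submodule K (Fin (2 * k + 1) → K))),
      Nat.card K = 2 → 200 ≤ k → (∀ A ∈ F, finrank K A = k) →
      (∀ A ∈ F, ∀ B ∈ F, A ⊓ B ≠ ⊥) →
      Nat.card {P : Submodule K (Fin (2 * k + 1) → K) // finrank K P = 1 ∧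
        gb 2 (2 * k - 1) (k - 2) < Nat.card {A : Submodule K (Fin (2 * k + 1) → K) //
          A ∈ F ∧ P ≤ A}} ≤ 2 ^ (k + 1) - 1) ∧
    (∀ (K : Type) [Field K] [Finite K] (a b : ℕ), b ≤ a →
      gb (Nat.card K) a b = Nat.card {W : Submodule K (Fin a → K) // finrank K W = b}) := by
  classical
  refine ⟨fun K _ _ => Run7.h19.HP.final all K, ?_, ?_⟩
  · intro K _ _ k F hq hk h1 h2
    have hV : finrank K (Fin (2 * k + 1) → K) = 2 * k + 1 := by simp
    have h3 := all K (Fin (2 * k + 1) → K) k F hq hV hk ⟨h1, h2⟩
    refine le_trans (le_of_eq ?_) h3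
    rw [Nat.card_eq_fintype_card, Fintype.card_subtype, high]
    congr 1
    ext P
    simp only [Finset.mem_filter, Finset.mem_univ, true_and]
    rw [hq, hV, deg, Nat.card_eq_fintype_card, Fintype.card_subtype]
    have e1 : 2 * k + 1 - 2 = 2 * k - 1 := by omega
    rw [e1]
    have e2 : (univ.filter (fun A : Submodule K (Fin (2 * k + 1) → K) => A ∈ F ∧ P ≤ A))
        = F.filter (fun A => P ≤ A) := by
      ext A
      simp
    rw [e2]
  · exact fun K _ _ a b hab => (SmallestRange.result K).2.2 a b hab

end Pool.Agent.Results.MP_5499ac_co.SmallestIsOne
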